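import Pool.Agent.H974R2.Lattice

/-!
The four-set correlation inequality (van den Berg - Haggstrom - Kahn), by induction on the edges.
-/

set_option autoImplicit false

namespace R279GL

open H974 Finset

/-- `v` is joined to the set `Y` by edges of `F`. -/
def Con (F : Finset Edg) (Y : Set Vtx) (v : Vtx) : Prop := ∃ y ∈ Y, Reach (↑F : Set Edg) y v

/-- The endpoints of an edge. -/
def N (e : Edg) : Set Vtx := {src e, tgt e}

theorem Con.refl {F : Finset Edg} {Y : Set Vtx} {v : Vtx} (h : v ∈ Y) : Con F Y v :=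
  ⟨v, h, Reach.refl _ _⟩

theorem Con.monoF {F G : Finset Edg} (h : F ⊆ G) {Y : Set Vtx} {v : Vtx} (hc : Con F Y v) :
    Con G Y v := by
  obtain ⟨y, hy, hr⟩ := hc
  exact ⟨y, hy, hr.mono (by exact_mod_cast h)⟩

theorem Con.monoY {F : Finset Edg} {Y Z : Set Vtx} (h : Y ⊆ Z) {v : Vtx} (hc : Con F Y v) :
    Con F Z v := by
  obtain ⟨y, hy, hr⟩ := hc
  exact ⟨y, h hy, hr⟩

theorem Con.step {F : Finset Edg} {Y : Set Vtx} {u v : Vtx} (hc : Con F Y u)
    (h : Reach (↑F : Set Edg) u v) : Con F Y v := by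
  obtain ⟨y, hy, hr⟩ := hc
  exact ⟨y, hy, hr.trans h⟩

/-- Two endpoints of an edge of `F` are joined. -/
theorem reach_N {F : Finset Edg} {e : Edg} (he : e ∈ F) {x y : Vtx} (hx : x ∈ N e)
    (hy : y ∈ N e) : Reach (↑F : Set Edg) x y := by
  have he' : e ∈ (↑F : Set Edg) := by exact_mod_cast he
  rcases hx with rfl | rfl <;> rcases hy with rfl | rfl
  · exact Reach.refl _ _
  · exact Adj.reach ⟨e, he', Or.inl ⟨rfl, rfl⟩⟩
  · exact Adj.reach ⟨e, he', Or.inr ⟨rfl, rfl⟩⟩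
  · exact Reach.refl _ _

theorem adj_insert {F : Finset Edg} {e : Edg} {u v : Vtx}
    (h : Adj (↑(insert e F) : Set Edg) u v) :
    Adj (↑F : Set Edg) u v ∨ (u ∈ N e ∧ v ∈ N e) := by
  obtain ⟨f, hf, h⟩ := h
  rw [Finset.coe_insert] at hf
  rcases hf with rfl | hf
  · right
    rcases h with ⟨h1, h2⟩ | ⟨h1, h2⟩
    · exact ⟨Or.inl h1.symm, Or.inr h2.symm⟩
    · exact ⟨Or.inr h2.symm, Or.inl h1.symm⟩
  · exact Or.inl ⟨f, hf, h⟩

theorem con_ins_A {F : Finset Edg} {e : Edg} {Y : Set Vtx} {x : Vtx} (hx : x ∈ N e)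
    (hY : x ∈ Y) (v : Vtx) : Con (insert e F) Y v ↔ Con F (Y ∪ N e) v := by
  constructor
  · rintro ⟨y, hy, hr⟩
    induction hr with
    | refl => exact Con.refl (Or.inl hy)
    | tail _ hs ih =>
      rcases adj_insert hs with h | h
      · exact ih.step h.reach
      · exact Con.refl (Or.inr h.2)
  · rintro ⟨y, hy, hr⟩
    have hr' : Reach (↑(insert e F) : Set Edg) y v :=
      hr.mono (by exact_mod_cast Finset.subset_insert e F)
    rcases hy with hy | hy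
    · exact ⟨y, hy, hr'⟩
    · exact ⟨x, hY, (reach_N (Finset.mem_insert_self e F) hx hy).trans hr'⟩

theorem con_ins_B {F : Finset Edg} {e : Edg} {Y : Set Vtx} (h : ∀ n ∈ N e, ¬ Con F Y n)
    (v : Vtx) : Con (insert e F) Y v ↔ Con F Y v := by
  constructor
  · rintro ⟨y, hy, hr⟩
    induction hr with
    | refl => exact Con.refl hy
    | tail _ hs ih =>
      rcases adj_insert hs with h' | h'
      · exact ih.step h'.reach
      · exact absurd ih (h _ h'.1)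
  · exact Con.monoF (Finset.subset_insert e F)

theorem none_N {F : Finset Edg} {e : Edg} {Y W : Set Vtx} {x : Vtx} (hx : x ∈ N e) (hW : x ∈ W)
    (h : ∀ w ∈ W, ¬ Con (insert e F) Y w) : ∀ n ∈ N e, ¬ Con F Y n := by
  intro n hn hc
  exact h x hW ((hc.monoF (Finset.subset_insert e F)).step
    (reach_N (Finset.mem_insert_self e F) hn hx))

theorem none_ins_B {F : Finset Edg} {e : Edg} {Y W : Set Vtx} {x : Vtx} (hx : x ∈ N e)
    (hW : x ∈ W) :
    (∀ w ∈ W, ¬ Con (insert e F) Y w) ↔ ∀ w ∈ W ∪ N e, ¬ Con F Y w := by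
  constructor
  · intro h w hw
    have hN := none_N hx hW h
    rcases hw with hw | hw
    · intro hc
      exact h w hw (hc.monoF (Finset.subset_insert e F))
    · exact hN w hw
  · intro h w hw hc
    have hN : ∀ n ∈ N e, ¬ Con F Y n := fun n hn => h n (Or.inr hn)
    exact h w (Or.inl hw) ((con_ins_B hN w).1 hc)

/-- The left factors. -/
noncomputable def LL (S : Finset Edg) (Y : Set Vtx) (a : Vtx) (W : Set Vtx) : ℝ :=
  Pr (fun _ => (1/2 : ℝ)) S (fun F => Con F Y a ∧ ∀ w ∈ W, ¬ Con F Y w)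

/-- The first right factor. -/
noncomputable def GG (S : Finset Edg) (Y : Set Vtx) (a : Vtx) (Z : Set Vtx) (b : Vtx)
    (V X : Set Vtx) : ℝ :=
  Pr (fun _ => (1/2 : ℝ)) S (fun F => (Con F Y a ∧ Con F Z b) ∧ ∀ w ∈ V, ¬ Con F X w)

/-- The second right factor. -/
noncomputable def DD (S : Finset Edg) (V X : Set Vtx) : ℝ :=
  Pr (fun _ => (1/2 : ℝ)) S (fun F => ∀ w ∈ V, ¬ Con F X w)

theorem ok2 : Ok (fun _ : Edg => (1/2 : ℝ)) := fun _ => by norm_num

theorem LL_nonneg (S : Finset Edg) (Y : Set Vtx) (a : Vtx) (W : Set Vtx) : 0 ≤ LL S Y a W :=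
  Pr_nonneg ok2 _ _

theorem GG_nonneg (S : Finset Edg) (Y : Set Vtx) (a : Vtx) (Z : Set Vtx) (b : Vtx)
    (V X : Set Vtx) : 0 ≤ GG S Y a Z b V X := Pr_nonneg ok2 _ _

theorem DD_nonneg (S : Finset Edg) (V X : Set Vtx) : 0 ≤ DD S V X := Pr_nonneg ok2 _ _

theorem GG_mono {S : Finset Edg} {Y Y' Z Z' V V' X X' : Set Vtx} {a b : Vtx} (h1 : Y ⊆ Y')
    (h2 : Z ⊆ Z') (h3 : V' ⊆ V) (h4 : X' ⊆ X) : GG S Y a Z b V X ≤ GG S Y' a Z' b V' X' :=
  Pr_mono ok2 (fun _ _ h => ⟨⟨h.1.1.monoY h1, h.1.2.monoY h2⟩,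
    fun w hw hc => h.2 w (h3 hw) (hc.monoY h4)⟩)

theorem DD_mono {S : Finset Edg} {V V' X X' : Set Vtx} (h3 : V' ⊆ V) (h4 : X' ⊆ X) :
    DD S V X ≤ DD S V' X' :=
  Pr_mono ok2 (fun _ _ h w hw hc => h w (h3 hw) (hc.monoY h4))

theorem Pr_insert {e : Edg} {S : Finset Edg} (he : e ∉ S) (A : Finset Edg → Prop) :
    Pr (fun _ => (1/2 : ℝ)) (insert e S) A =
      (Pr (fun _ => (1/2 : ℝ)) S (fun F => A (insert e F)) +
        Pr (fun _ => (1/2 : ℝ)) S A) / 2 := by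
  unfold Pr
  rw [Ex_insert _ he]
  ring

/-- The one-element case of the four functions theorem. -/
theorem four1 {a0 a1 b0 b1 c0 c1 d0 d1 : ℝ} (hc0 : 0 ≤ c0) (hc1 : 0 ≤ c1) (hd0 : 0 ≤ d0)
    (hd1 : 0 ≤ d1) (ha0 : 0 ≤ a0) (ha1 : 0 ≤ a1) (hb0 : 0 ≤ b0) (hb1 : 0 ≤ b1)
    (h00 : a0 * b0 ≤ c0 * d0) (h10 : a1 * b0 ≤ c1 * d0) (h01 : a0 * b1 ≤ c1 * d0)
    (h11 : a1 * b1 ≤ c1 * d1) : (a1 + a0) * (b1 + b0) ≤ (c1 + c0) * (d1 + d0) := by
  obtain ⟨t, ht⟩ : ∃ t, t = c1 * d0 := ⟨_, rfl⟩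
  have ht0 : 0 ≤ t := by rw [ht]; positivity
  have hp0 : 0 ≤ a0 * b1 := by positivity
  have hq0 : 0 ≤ a1 * b0 := by positivity
  rw [← ht] at h10 h01
  have key : a0 * b1 + a1 * b0 ≤ t + c0 * d1 := by
    rcases eq_or_lt_of_le ht0 with h | h
    · have : 0 ≤ c0 * d1 := by positivity
      linarith
    · have h1 : (a0 * b1) * (a1 * b0) ≤ t * (c0 * d1) := by
        calc (a0 * b1) * (a1 * b0) = (a0 * b0) * (a1 * b1) := by ring
          _ ≤ (c0 * d0) * (c1 * d1) :=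
              mul_le_mul h00 h11 (by positivity) (by positivity)
          _ = t * (c0 * d1) := by rw [ht]; ring
      have h2 : 0 ≤ (t - a0 * b1) * (t - a1 * b0) :=
        mul_nonneg (by linarith) (by linarith)
      have h3 : t * (a0 * b1 + a1 * b0) ≤ t * (t + c0 * d1) := by nlinarith
      exact le_of_mul_le_mul_left h3 h
  nlinarith

theorem isolated {F S : Finset Edg} (hF : F ⊆ S) {x y : Vtx} (h : ∀ e ∈ S, x ∉ N e)
    (hr : Reach (↑F : Set Edg) x y) : y = x := by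
  induction hr with
  | refl => rfl
  | tail _ hs ih =>
    obtain ⟨e, he, hs⟩ := hs
    have he' : e ∈ S := hF (by exact_mod_cast he)
    rcases hs with ⟨h1, h2⟩ | ⟨h1, h2⟩
    · exact absurd (show x ∈ N e from Or.inl (h1.trans ih).symm) (h e he')
    · exact absurd (show x ∈ N e from Or.inr (h2.trans ih).symm) (h e he')

/-- The case in which no edge meets `Y ∩ Z` or `W ∩ W'`. -/
theorem caseC (S : Finset Edg) (Y Z W W' : Set Vtx) (a b : Vtx)
    (h1 : ∀ x ∈ Y ∩ Z, ∀ e ∈ S, x ∉ N e) (h2 : ∀ x ∈ W ∩ W', ∀ e ∈ S, x ∉ N e) :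
    LL S Y a W * LL S Z b W' ≤ GG S Y a Z b (W ∩ W') (Y ∪ Z) * DD S (W ∪ W') (Y ∩ Z) := by
  have hr : 0 ≤ GG S Y a Z b (W ∩ W') (Y ∪ Z) * DD S (W ∪ W') (Y ∩ Z) :=
    mul_nonneg (GG_nonneg _ _ _ _ _ _ _) (DD_nonneg _ _ _)
  have zero : ∀ (Y : Set Vtx) (a : Vtx) (W : Set Vtx), (∃ w, w ∈ Y ∧ w ∈ W) → LL S Y a W = 0 := by
    rintro Y a W ⟨w, hw, hw'⟩
    have h3 : LL S Y a W = Pr (fun _ => (1/2 : ℝ)) S (fun _ => False) := by
      apply Pr_congr
      intro F _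
      constructor
      · intro h
        exact h.2 w hw' (Con.refl hw)
      · exact False.elim
    rw [h3]
    unfold Pr
    rw [Ex_congr (g := fun _ => 0) (fun F _ => ind_not_of (fun h => h)), Ex_const]
  by_cases hYW : ∃ w, w ∈ Y ∧ w ∈ W
  · rw [zero Y a W hYW, zero_mul]
    exact hr
  by_cases hZW : ∃ w, w ∈ Z ∧ w ∈ W'
  · rw [zero Z b W' hZW, mul_zero]
    exact hr
  have hD : DD S (W ∪ W') (Y ∩ Z) = 1 := by
    apply Pr_true
    rintro F hF w hw ⟨y, hy, hyw⟩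
    have h3 := isolated hF (h1 y hy) hyw
    rw [h3] at hw
    rcases hw with hw | hw
    · exact hYW ⟨y, hy.1, hw⟩
    · exact hZW ⟨y, hy.2, hw⟩
  have hG : Pr (fun _ => (1/2 : ℝ)) S (fun F => Con F Y a ∧ Con F Z b)
      ≤ GG S Y a Z b (W ∩ W') (Y ∪ Z) := by
    apply Pr_mono ok2
    intro F hF h
    refine ⟨h, ?_⟩
    rintro w hw ⟨y, hy, hyw⟩
    have h3 := isolated hF (h2 w hw) hyw.symm
    rw [h3] at hy
    rcases hy with hy | hy
    · exact hYW ⟨w, hy, hw.1⟩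
    · exact hZW ⟨w, hy, hw.2⟩
  rw [hD, mul_one]
  refine le_trans ?_ hG
  refine le_trans (mul_le_mul (b := Pr (fun _ => (1/2 : ℝ)) S (fun F => Con F Y a))
    (d := Pr (fun _ => (1/2 : ℝ)) S (fun F => Con F Z b)) ?_ ?_ (LL_nonneg _ _ _ _)
    (Pr_nonneg ok2 _ _)) (Pr_harris ok2 ?_ ?_)
  · exact Pr_mono ok2 (fun F _ h => h.1)
  · exact Pr_mono ok2 (fun F _ h => h.1)
  · exact fun F G h _ hc => hc.monoF h
  · exact fun F G h _ hc => hc.monoF h

theorem four (S : Finset Edg) : ∀ (Y Z W W' : Set Vtx) (a b : Vtx),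
    LL S Y a W * LL S Z b W' ≤ GG S Y a Z b (W ∩ W') (Y ∪ Z) * DD S (W ∪ W') (Y ∩ Z) := by
  induction S using Finset.strongInduction with
  | H S ih =>
  intro Y Z W W' a b
  by_cases hA : ∃ x ∈ Y ∩ Z, ∃ e ∈ S, x ∈ N e
  · obtain ⟨x, hx, e, he, hxe⟩ := hA
    obtain ⟨S', hS', heS', hlt⟩ : ∃ S', insert e S' = S ∧ e ∉ S' ∧ S' ⊂ S :=
      ⟨S.erase e, Finset.insert_erase he, Finset.notMem_erase e S, Finset.erase_ssubset he⟩
    have IH := ih S' hlt
    have hL : ∀ (Y : Set Vtx) (a : Vtx) (W : Set Vtx), x ∈ Y →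
        LL S Y a W = (LL S' (Y ∪ N e) a W + LL S' Y a W) / 2 := by
      intro Y a W hxY
      rw [← hS']
      unfold LL
      rw [Pr_insert heS']
      congr 2
      apply Pr_congr
      intro F _
      simp only [con_ins_A hxe hxY]
    have hG : GG S Y a Z b (W ∩ W') (Y ∪ Z)
        = (GG S' (Y ∪ N e) a (Z ∪ N e) b (W ∩ W') (Y ∪ Z ∪ N e)
          + GG S' Y a Z b (W ∩ W') (Y ∪ Z)) / 2 := by
      rw [← hS']
      unfold GG
      rw [Pr_insert heS']
      congr 2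
      apply Pr_congr
      intro F _
      simp only [con_ins_A hxe hx.1, con_ins_A hxe hx.2, con_ins_A hxe (show x ∈ Y ∪ Z from Or.inl hx.1)]
    have hD : DD S (W ∪ W') (Y ∩ Z)
        = (DD S' (W ∪ W') (Y ∩ Z ∪ N e) + DD S' (W ∪ W') (Y ∩ Z)) / 2 := by
      rw [← hS']
      unfold DD
      rw [Pr_insert heS']
      congr 2
      apply Pr_congr
      intro F _
      simp only [con_ins_A hxe hx]
    have m := four1 (GG_nonneg S' Y a Z b (W ∩ W') (Y ∪ Z))
      (GG_nonneg S' (Y ∪ N e) a (Z ∪ N e) b (W ∩ W') (Y ∪ Z ∪ N e))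
      (DD_nonneg S' (W ∪ W') (Y ∩ Z)) (DD_nonneg S' (W ∪ W') (Y ∩ Z ∪ N e))
      (LL_nonneg S' Y a W) (LL_nonneg S' (Y ∪ N e) a W)
      (LL_nonneg S' Z b W') (LL_nonneg S' (Z ∪ N e) b W')
      (IH Y Z W W' a b)
      (le_trans (IH (Y ∪ N e) Z W W' a b) (mul_le_mul
        (GG_mono (subset_refl _) (Set.subset_union_left) (subset_refl _)
          (by intro v hv; simp only [Set.mem_union] at hv ⊢; tauto))
        (DD_mono (subset_refl _) (by intro v hv; exact ⟨Or.inl hv.1, hv.2⟩))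
        (DD_nonneg _ _ _) (GG_nonneg _ _ _ _ _ _ _)))
      (le_trans (IH Y (Z ∪ N e) W W' a b) (mul_le_mul
        (GG_mono (Set.subset_union_left) (subset_refl _) (subset_refl _)
          (by intro v hv; simp only [Set.mem_union] at hv ⊢; tauto))
        (DD_mono (subset_refl _) (by intro v hv; exact ⟨hv.1, Or.inl hv.2⟩))
        (DD_nonneg _ _ _) (GG_nonneg _ _ _ _ _ _ _)))
      (le_trans (IH (Y ∪ N e) (Z ∪ N e) W W' a b) (mul_le_mul
        (GG_mono (subset_refl _) (subset_refl _) (subset_refl _)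
          (by intro v hv; simp only [Set.mem_union] at hv ⊢; tauto))
        (DD_mono (subset_refl _) (by
          intro v hv
          simp only [Set.mem_union, Set.mem_inter_iff] at hv ⊢
          tauto))
        (DD_nonneg _ _ _) (GG_nonneg _ _ _ _ _ _ _)))
    rw [hL Y a W hx.1, hL Z b W' hx.2, hG, hD]
    linarith
  by_cases hB : ∃ x ∈ W ∩ W', ∃ e ∈ S, x ∈ N e
  · obtain ⟨x, hx, e, he, hxe⟩ := hB
    obtain ⟨S', hS', heS', hlt⟩ : ∃ S', insert e S' = S ∧ e ∉ S' ∧ S' ⊂ S :=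
      ⟨S.erase e, Finset.insert_erase he, Finset.notMem_erase e S, Finset.erase_ssubset he⟩
    have IH := ih S' hlt
    have hL : ∀ (Y : Set Vtx) (a : Vtx) (W : Set Vtx), x ∈ W →
        LL S Y a W = (LL S' Y a (W ∪ N e) + LL S' Y a W) / 2 := by
      intro Y a W hxW
      rw [← hS']
      unfold LL
      rw [Pr_insert heS']
      congr 2
      apply Pr_congr
      intro F _
      rw [none_ins_B hxe hxW]
      constructor
      · rintro ⟨h1, h2⟩
        exact ⟨(con_ins_B (fun n hn => h2 n (Or.inr hn)) a).1 h1, h2⟩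
      · rintro ⟨h1, h2⟩
        exact ⟨(con_ins_B (fun n hn => h2 n (Or.inr hn)) a).2 h1, h2⟩
    have hG : GG S Y a Z b (W ∩ W') (Y ∪ Z)
        = (GG S' Y a Z b (W ∩ W' ∪ N e) (Y ∪ Z)
          + GG S' Y a Z b (W ∩ W') (Y ∪ Z)) / 2 := by
      rw [← hS']
      unfold GG
      rw [Pr_insert heS']
      congr 2
      apply Pr_congr
      intro F _
      rw [none_ins_B hxe hx]
      constructor
      · rintro ⟨h1, h2⟩
        exact ⟨⟨(con_ins_B (fun n hn hc => h2 n (Or.inr hn) (hc.monoY Set.subset_union_left)) a).1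
          h1.1, (con_ins_B (fun n hn hc => h2 n (Or.inr hn)
            (hc.monoY Set.subset_union_right)) b).1 h1.2⟩, h2⟩
      · rintro ⟨h1, h2⟩
        exact ⟨⟨(con_ins_B (fun n hn hc => h2 n (Or.inr hn) (hc.monoY Set.subset_union_left)) a).2
          h1.1, (con_ins_B (fun n hn hc => h2 n (Or.inr hn)
            (hc.monoY Set.subset_union_right)) b).2 h1.2⟩, h2⟩
    have hD : DD S (W ∪ W') (Y ∩ Z)
        = (DD S' (W ∪ W' ∪ N e) (Y ∩ Z) + DD S' (W ∪ W') (Y ∩ Z)) / 2 := by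
      rw [← hS']
      unfold DD
      rw [Pr_insert heS']
      congr 2
      apply Pr_congr
      intro F _
      exact none_ins_B hxe (show x ∈ W ∪ W' from Or.inl hx.1)
    have m := four1 (DD_nonneg S' (W ∪ W') (Y ∩ Z)) (DD_nonneg S' (W ∪ W' ∪ N e) (Y ∩ Z))
      (GG_nonneg S' Y a Z b (W ∩ W') (Y ∪ Z)) (GG_nonneg S' Y a Z b (W ∩ W' ∪ N e) (Y ∪ Z))
      (LL_nonneg S' Y a W) (LL_nonneg S' Y a (W ∪ N e))
      (LL_nonneg S' Z b W') (LL_nonneg S' Z b (W' ∪ N e))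
      (by rw [mul_comm (DD _ _ _)]; exact IH Y Z W W' a b)
      (by
        rw [mul_comm (DD _ _ _)]
        exact (le_trans (IH Y Z (W ∪ N e) W' a b) (mul_le_mul
          (GG_mono (subset_refl _) (subset_refl _)
            (by intro v hv; exact ⟨Or.inl hv.1, hv.2⟩) (subset_refl _))
          (DD_mono (by intro v hv; simp only [Set.mem_union] at hv ⊢; tauto) (subset_refl _))
          (DD_nonneg _ _ _) (GG_nonneg _ _ _ _ _ _ _))))
      (by
        rw [mul_comm (DD _ _ _)]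
        exact (le_trans (IH Y Z W (W' ∪ N e) a b) (mul_le_mul
          (GG_mono (subset_refl _) (subset_refl _)
            (by intro v hv; exact ⟨hv.1, Or.inl hv.2⟩) (subset_refl _))
          (DD_mono (by intro v hv; simp only [Set.mem_union] at hv ⊢; tauto) (subset_refl _))
          (DD_nonneg _ _ _) (GG_nonneg _ _ _ _ _ _ _))))
      (by
        rw [mul_comm (DD _ _ _)]
        exact (le_trans (IH Y Z (W ∪ N e) (W' ∪ N e) a b) (mul_le_mul
          (GG_mono (subset_refl _) (subset_refl _)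
            (by
              intro v hv
              simp only [Set.mem_union, Set.mem_inter_iff] at hv ⊢
              tauto) (subset_refl _))
          (DD_mono (by intro v hv; simp only [Set.mem_union] at hv ⊢; tauto) (subset_refl _))
          (DD_nonneg _ _ _) (GG_nonneg _ _ _ _ _ _ _))))
    rw [hL Y a W hx.1, hL Z b W' hx.2, hG, hD]
    linarith
  · push Not at hA hB
    exact caseC S Y Z W W' a b hA hB

end R279GL
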