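import Pool.Agent.R752.GL.Stm
import Pool.Agent.R279.GLF.FOUR

/-!
The four-set correlation inequality in the form of project GL.
-/

set_option autoImplicit false

namespace R752GL

theorem t_four : S_FOUR := fun S Y Z W W' a b => R279GL.four S Y Z W W' a b

end R752GL
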